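import Pool.Agent.ERB.Fin

/-!
# A barrier for the Erdős–Rankin method

If all primes of `(y ^ (c ε), y]` outside a set of reciprocal sum at most `c ε` divide `m`, then
more than `y ^ (1 + ε / 2)` of the integers `a` with `m + y ^ (1 + ε / 2) < a ≤ m + y ^ (1 + ε)`
have no prime factor `≤ y`, whatever the classes of `m` modulo the other primes are.
-/

set_option autoImplicit false

namespace Pool.Agent.Results.MP_7b323f_nt.ErdosRankinBarrier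

theorem result : ∃ c : ℝ, 0 < c ∧ ∀ ε : ℝ, 0 < ε → ε ≤ 1 → ∃ y₀ : ℕ, ∀ y : ℕ, y₀ ≤ y →
    ∀ m : ℤ,
      ∑ p ∈ (Finset.Icc 1 y).filter
        (fun p : ℕ => p.Prime ∧ (y : ℝ) ^ (c * ε) < p ∧ ¬ (p : ℤ) ∣ m), 1 / (p : ℝ) ≤ c * ε →
      (y : ℝ) ^ (1 + ε / 2) ≤
        (({a : ℤ | (m : ℝ) + (y : ℝ) ^ (1 + ε / 2) < a ∧ (a : ℝ) ≤ m + (y : ℝ) ^ (1 + ε) ∧
          ∀ p : ℕ, p.Prime → p ≤ y → ¬ (p : ℤ) ∣ a} : Set ℤ).ncard : ℝ) := by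
  obtain ⟨c, hc, h⟩ := Pool.Agent.ERB.barrier
  refine ⟨c, hc, fun ε hε hε1 => ?_⟩
  obtain ⟨y₀, hy₀⟩ := h ε hε hε1
  refine ⟨y₀, fun y hy m hm => ?_⟩
  obtain ⟨W, hW, hWa⟩ := hy₀ y hy m hm
  refine hW.trans ?_
  have h1 : 0 ≤ (y : ℝ) ^ (1 + ε / 2) := by positivity
  have h2 : 0 ≤ (y : ℝ) ^ (1 + ε) := by positivity
  have hsub : (W : Set ℤ) ⊆ {a : ℤ | (m : ℝ) + (y : ℝ) ^ (1 + ε / 2) < a ∧
      (a : ℝ) ≤ m + (y : ℝ) ^ (1 + ε) ∧ ∀ p : ℕ, p.Prime → p ≤ y → ¬ (p : ℤ) ∣ a} := by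
    intro a ha
    obtain ⟨h3, h4, h5⟩ := hWa a ha
    refine ⟨?_, ?_, h5⟩
    · have h6 : m + ((⌊(y : ℝ) ^ (1 + ε / 2)⌋₊ : ℕ) : ℤ) + 1 ≤ a := h3
      have h7 : (m : ℝ) + ((⌊(y : ℝ) ^ (1 + ε / 2)⌋₊ : ℕ) : ℝ) + 1 ≤ a := by exact_mod_cast h6
      have h8 := Nat.lt_floor_add_one ((y : ℝ) ^ (1 + ε / 2))
      linarith
    · have h7 : (a : ℝ) ≤ (m : ℝ) + ((⌊(y : ℝ) ^ (1 + ε)⌋₊ : ℕ) : ℝ) := by exact_mod_cast h4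
      have h8 := Nat.floor_le h2
      linarith
  have hfin : ({a : ℤ | (m : ℝ) + (y : ℝ) ^ (1 + ε / 2) < a ∧
      (a : ℝ) ≤ m + (y : ℝ) ^ (1 + ε) ∧ ∀ p : ℕ, p.Prime → p ≤ y → ¬ (p : ℤ) ∣ a} :
      Set ℤ).Finite := by
    refine (Set.finite_Icc m (m + ⌊(y : ℝ) ^ (1 + ε)⌋₊)).subset ?_
    rintro a ⟨h3, h4, -⟩
    have h5 : (m : ℝ) ≤ a := by linarith
    refine ⟨by exact_mod_cast h5, ?_⟩
    have h6 : ((a - m : ℤ) : ℝ) ≤ (y : ℝ) ^ (1 + ε) := by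
      push_cast
      linarith
    have h7 : 0 ≤ a - m := by
      have : m ≤ a := by exact_mod_cast h5
      omega
    obtain ⟨n, hn⟩ := Int.eq_ofNat_of_zero_le h7
    rw [hn] at h6
    have h8 : n ≤ ⌊(y : ℝ) ^ (1 + ε)⌋₊ := Nat.le_floor (by exact_mod_cast h6)
    omega
  have h9 := Set.ncard_le_ncard hsub hfin
  rw [Set.ncard_coe_finset] at h9
  exact_mod_cast h9

end Pool.Agent.Results.MP_7b323f_nt.ErdosRankinBarrier
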