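import Pool.Agent.SPT.Fin

set_option autoImplicit false

open Filter MeasureTheory ProbabilityTheory

namespace Pool.Agent.Results.MP_7b323f_nt.RandomShiftShortIntervals

/-- The sieve of Eratosthenes with shifted classes: the integers `n ≥ 2` such that for every prime
`p ≤ √n` the class `1` modulo `p` is avoided if `p` is odd and belongs to `F`, and the class `0` modulo
`p` is avoided otherwise. For `F = ∅` this is the set of the primes. -/
def ShiftedSieve (F : Set ℕ) : Set ℕ :=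
  {n | 2 ≤ n ∧ ∀ p : ℕ, p.Prime → p ^ 2 ≤ n →
    ((p ∈ F ∧ p ≠ 2) → ¬ p ∣ n - 1) ∧ (¬ (p ∈ F ∧ p ≠ 2) → ¬ p ∣ n)}

/-- Let `g` be a nondecreasing function (from some point on) with `log log x ≤ g x ≤ log x / 25` for all
large `x`. If the events `p ∈ F` are independent and
`exp (-g p) ≤ P(p ∈ F) ≤ 1 - exp (-g p)` for all large primes `p`, then almost surely for all large real
`x` the shifted sieve has an element in `(x, x + exp ((9/2) √(log x * g x))]`. -/
theorem result {Ω : Type*} [MeasurableSpace Ω] (μ : Measure Ω) [IsProbabilityMeasure μ]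
    (E : ℕ → Set Ω) (hE : ∀ p, MeasurableSet (E p)) (hind : iIndepSet E μ)
    (g : ℝ → ℝ) (hg : ∃ x₀, MonotoneOn g (Set.Ici x₀))
    (hg₁ : ∀ᶠ x : ℝ in atTop, Real.log (Real.log x) ≤ g x)
    (hg₂ : ∀ᶠ x : ℝ in atTop, g x ≤ Real.log x / 25)
    (hF : ∀ᶠ p : ℕ in atTop, p.Prime →
      Real.exp (-g p) ≤ μ.real (E p) ∧ μ.real (E p) ≤ 1 - Real.exp (-g p)) :
    ∀ᵐ ω ∂μ, ∀ᶠ x : ℝ in atTop, ∃ n : ℕ, n ∈ ShiftedSieve {p | ω ∈ E p} ∧ x < n ∧
      (n : ℝ) ≤ x + Real.exp (9 / 2 * √(Real.log x * g x)) :=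
  Pool.Agent.SPT.ae_short_real μ E hE hind g hg hg₁ hg₂ hF

end Pool.Agent.Results.MP_7b323f_nt.RandomShiftShortIntervals
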