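import Pool.Agent.RG2.Fin2

/-!
# The largest gap between rough numbers in almost all windows

Q1 asks whether the largest gap between primes up to `x` is `(log x)^(2+o(1))`.  The primes of
`(z, z^2]` are the integers of `[0, z^2]` (larger than `1`) without prime factor `≤ z`.  The theorem
bounds the largest gap between integers without prime factor `≤ z = exp((log X)^θ)` in the window
`[n, n + exp(c (log X)^γ)]` for almost all `n ≤ X`.

* If `γ ≤ θ` and `θ + γ < 1`, it is `(log X)^(θ+γ+o(1))`.
* If `θ ≥ 1/2` and `θ + γ ≥ 1`, it is at least `(log X)^(1-o(1))` and at most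
  `exp((log X)^(θ+γ-1+o(1)))`.

For `γ = θ` and `c = 2` the window is `[n, n + z^2]` and `n` runs up to `X = exp((log z)^B)`,
`B = 1/θ`: for `B > 2` the largest gap is `(log z)^(2+o(1))`, and for `1 < B ≤ 2` it is between
`(log z)^(B-o(1))` and `exp((log z)^(2-B+o(1)))`.

The proof of the first part is in `Pool/Agent/RG`.  The upper half of the second part is in
`Pool/Agent/RG2`: the moments of order `(log X)^(1-θ-δ)` of Brun's sieve for short intervals.  The
sieve sum is expanded over tuples of sets of large primes; tuples of sets which are not linked have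
mean zero over full periods (`Mean`), the linked ones are counted (`Tup`, `Mom`), and the small
primes are kept as weights (`Sieve`, `Cnt`).  The lower half is the second moment of the first part
for a smaller `γ`, followed by a shift.
-/

set_option autoImplicit false

namespace Pool.Agent.Results.MP_7b323f_nt.RoughGapLaw

open Finset Real Filter Topology

/-- No prime `p ≤ z` divides `m`. -/
def Rough (z : ℝ) (m : ℕ) : Prop := ∀ p : ℕ, p.Prime → (p : ℝ) ≤ z → ¬ p ∣ m

/-- `r < r'` are consecutive `z`-rough integers. -/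
def Consecutive (z : ℝ) (r r' : ℕ) : Prop :=
  Rough z r ∧ Rough z r' ∧ r < r' ∧ ∀ m, r < m → m < r' → ¬ Rough z m

/-- The largest gap between consecutive `z`-rough integers of the window `[n, n + L]` exists and is
at least `g` and at most `G`. -/
def LargestGapIn (z L g G : ℝ) (n : ℕ) : Prop :=
  (∀ r r' : ℕ, (n : ℝ) ≤ r → (r' : ℝ) ≤ n + L → Consecutive z r r' → (r' : ℝ) - r ≤ G) ∧
  ∃ r r' : ℕ, (n : ℝ) ≤ r ∧ (r' : ℝ) ≤ n + L ∧ Consecutive z r r' ∧ g ≤ (r' : ℝ) - r

open Classical in
/-- Let `θ < 1`, `0 < γ < 1`, `c > 0`, `ε > 0`.  If `γ ≤ θ` and `θ + γ < 1`, then the proportion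
of the `n ≤ X` for which the largest gap between consecutive integers without prime factor
`≤ exp((log X)^θ)` in the window `[n, n + exp(c (log X)^γ)]` is not between `(log X)^(θ+γ-ε)` and
`(log X)^(θ+γ+ε)` tends to zero.  If `θ ≥ 1/2` and `θ + γ ≥ 1`, then the same holds with
`(log X)^(1-ε)` and `exp((log X)^(θ+γ-1+ε))`. -/
theorem result (θ γ c ε : ℝ) (hθ1 : θ < 1) (hγ0 : 0 < γ) (hγ1 : γ < 1)
    (hc : 0 < c) (hε : 0 < ε) :
    (γ ≤ θ → θ + γ < 1 → Tendsto (fun X : ℕ => (((Icc 1 X).filter (fun n : ℕ =>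
      ¬ LargestGapIn (exp (log X ^ θ)) (exp (c * log X ^ γ)) (log X ^ (θ + γ - ε))
        (log X ^ (θ + γ + ε)) n)).card : ℝ) / X) atTop (𝓝 0)) ∧
    (1 / 2 ≤ θ → 1 ≤ θ + γ → Tendsto (fun X : ℕ => (((Icc 1 X).filter (fun n : ℕ =>
      ¬ LargestGapIn (exp (log X ^ θ)) (exp (c * log X ^ γ)) (log X ^ (1 - ε))
        (exp (log X ^ (θ + γ - 1 + ε))) n)).card : ℝ) / X) atTop (𝓝 0)) :=
  Pool.Agent.RG2.gap_law θ γ c ε hθ1 hγ0 hγ1 hc hε

end Pool.Agent.Results.MP_7b323f_nt.RoughGapLaw
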