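import Pool.Agent.Helper76.OB.FIN

set_option autoImplicit false

open Filter MeasureTheory ProbabilityTheory

namespace Pool.Agent.Results.MP_7b323f_nt.SparseShiftedSieve

/-- The sieve of Eratosthenes with shifted classes: the integers `n ≥ 2` such that for every prime
`p ≤ √n` the class `1` modulo `p` is avoided if `p` is odd and belongs to `F`, and the class `0` modulo
`p` is avoided otherwise. For `F = ∅` this is the set of the primes. -/
def ShiftedSieve (F : Set ℕ) : Set ℕ :=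
  {n | 2 ≤ n ∧ ∀ p : ℕ, p.Prime → p ^ 2 ≤ n →
    ((p ∈ F ∧ p ≠ 2) → ¬ p ∣ n - 1) ∧ (¬ (p ∈ F ∧ p ≠ 2) → ¬ p ∣ n)}

open Classical in
/-- If the events `p ∈ F` are independent with `(log p)^B / p ≤ P(p ∈ F) ≤ p^(-c)` for large primes `p`
(`B > 1`, `c > 0`), then almost surely the shifted sieve contains a positive proportion of the primes
and has gaps of length `(log x)^(2-θ)` below `x` for all large `x`, for each `θ > 3/(B+2)`. -/
theorem result {Ω : Type*} [MeasurableSpace Ω] (μ : Measure Ω) [IsProbabilityMeasure μ]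
    (E : ℕ → Set Ω) (hE : ∀ p, MeasurableSet (E p)) (hind : iIndepSet E μ)
    (B c θ : ℝ) (hB : 1 < B) (hc : 0 < c) (hθ : 3 / (B + 2) < θ)
    (hF : ∀ᶠ p : ℕ in atTop, p.Prime →
      (Real.log p) ^ B / p ≤ μ.real (E p) ∧ μ.real (E p) ≤ (p : ℝ) ^ (-c)) :
    ∀ᵐ ω ∂μ, ∃ κ : ℝ, 0 < κ ∧ ∀ᶠ x : ℕ in atTop,
      κ * Nat.primeCounting x ≤
        (((Finset.Icc 1 x).filter (fun q => q.Prime ∧ q ∈ ShiftedSieve {p | ω ∈ E p})).card : ℝ) ∧
      ∃ a b : ℕ, a < b ∧ b ≤ x ∧ a ∈ ShiftedSieve {p | ω ∈ E p} ∧ b ∈ ShiftedSieve {p | ω ∈ E p} ∧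
        (∀ n, a < n → n < b → n ∉ ShiftedSieve {p | ω ∈ E p}) ∧
        (Real.log x) ^ (2 - θ) ≤ (b : ℝ) - a := by
  obtain ⟨C, hC, hup⟩ := Pool.Agent.Helper76.OB.upper_count
  filter_upwards [Pool.Agent.Helper76.OB.main μ E hE hind B c θ hB hc hθ hF] with ω hω
  obtain ⟨⟨κ, hκ, hlow⟩, _, hgap⟩ := hω
  refine ⟨κ / C, by positivity, ?_⟩
  filter_upwards [hlow, hgap, eventually_ge_atTop 2] with x h1 h2 h3
  refine ⟨?_, h2⟩
  have hlog : 0 < Real.log x := Real.log_pos (by exact_mod_cast (by omega : 1 < x))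
  -- the primes up to `x` belong to the sifted set of the empty set
  have hpi : ((Nat.primeCounting x : ℕ) : ℝ) ≤ C * x / Real.log x := by
    refine le_trans ?_ (hup ∅ x h3)
    have h4 : Nat.primeCounting x ≤
        ((Finset.Icc 1 x).filter (fun n => n ∈ Pool.Agent.Helper76.OB.Sv ∅)).card := by
      rw [Nat.primeCounting, Nat.primeCounting', Nat.count_eq_card_filter_range]
      apply Finset.card_le_card
      intro q hq
      rw [Finset.mem_filter, Finset.mem_range] at hq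
      rw [Finset.mem_filter, Finset.mem_Icc]
      refine ⟨⟨hq.2.pos, by omega⟩, hq.2.two_le, fun p hp hpq => ⟨fun h => absurd h.1 (by simp), ?_⟩⟩
      intro _ hdvd
      have h5 : p = q := (Nat.prime_dvd_prime_iff_eq hp hq.2).1 hdvd
      have h6 := hp.two_le
      subst h5
      nlinarith
    exact_mod_cast h4
  calc κ / C * ((Nat.primeCounting x : ℕ) : ℝ) ≤ κ / C * (C * x / Real.log x) := by gcongr
    _ = κ * x / Real.log x := by field_simp
    _ ≤ _ := h1

end Pool.Agent.Results.MP_7b323f_nt.SparseShiftedSieve
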